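import Pool.Agent.Helper94.SY.St

set_option autoImplicit false

namespace Pool.Agent.Helper82.SY

open Pool.Agent.Helper94.SY Finset
open Pool.Agent.Helper1.PFS (G rmul lineSum rmul_01 row2 lineSum_row2 mul_apply)
open scoped Classical

theorem rmul_mul' {p : ℕ} [Fact p.Prime] (r : W p) (g h : G p) : rmul r (g * h) = rmul (rmul r g) h := by
  unfold rmul
  rw [mul_apply, mul_apply, mul_apply, mul_apply]
  refine Prod.ext ?_ ?_
  · dsimp only
    ring
  · dsimp only
    ring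

theorem exists_row2 {p : ℕ} [Fact p.Prime] (v : W p) (hv : v ≠ 0) : ∃ z : G p, row2 z = v := by
  by_cases h2 : v.2 = 0
  · have h1 : v.1 ≠ 0 := by
      intro h1
      exact hv (Prod.ext h1 h2)
    refine ⟨⟨!![0, -(v.1)⁻¹; v.1, v.2], ?_⟩, ?_⟩
    · rw [Matrix.det_fin_two_of]
      field_simp
      ring
    · rfl
  · refine ⟨⟨!![(v.2)⁻¹, 0; v.1, v.2], ?_⟩, ?_⟩
    · rw [Matrix.det_fin_two_of]
      field_simp
      ring
    · rfl

theorem hLN : StLN := by
  intro p _ r v hr hv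
  obtain ⟨k, hk⟩ := exists_row2 r hr
  obtain ⟨z, hz⟩ := exists_row2 v hv
  have h1 : ∀ g : G p, rmul r g = rmul (0, 1) (k * g) := by
    intro g
    rw [rmul_mul', rmul_01, hk]
  have h2 : (∑ g : G p, if rmul r g = v then (1 : ℝ) else 0) = ∑ g : G p, if rmul (0, 1) (k * g) = v then (1 : ℝ) else 0 :=
    Finset.sum_congr rfl fun g _ => by rw [h1]
  rw [h2, Fintype.sum_equiv (Equiv.mulLeft k) (fun g : G p => if rmul (0, 1) (k * g) = v then (1 : ℝ) else 0)
    (fun g : G p => if rmul (0, 1) g = v then (1 : ℝ) else 0) (fun g => rfl)]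
  have h3 := lineSum_row2 (fun _ : G p => (1 : ℝ)) z
  rw [hz] at h3
  unfold lineSum at h3
  have h4 : (∑ g : G p, if rmul (0, 1) g = v then (1 : ℝ) else 0) = ∑ _s : ZMod p, (1 : ℝ) := by
    rw [← h3]
  rw [h4]
  simp [ZMod.card]

end Pool.Agent.Helper82.SY
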