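import Pool.Agent.Helper94.SY.St
import Pool.Agent.Helper82.SY.M_LN

set_option autoImplicit false

namespace Pool.Agent.Helper82.SY

open Pool.Agent.Helper94.SY Finset
open Pool.Agent.Helper1.PFS (G rmul lineSum sum_lineSum)
open Pool.Agent.Helper70.EC (TT)
open scoped Classical

theorem RR_eq {p : ℕ} [Fact p.Prime] (F : Finset (W p × W p)) (g : G p) :
    RR F g = ∑ e ∈ F, if rmul e.1 g = e.2 then (1 : ℝ) else 0 := by
  unfold RR
  rw [← Finset.sum_filter, ← Finset.sum_filter]
  refine Finset.sum_nbij' (fun r => (r, rmul r g)) (fun e => e.1) ?_ ?_ ?_ ?_ ?_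
  · intro r hr
    rw [Finset.mem_filter] at hr
    rw [Finset.mem_filter]
    exact ⟨hr.2, rfl⟩
  · intro e he
    rw [Finset.mem_filter] at he
    rw [Finset.mem_filter]
    refine ⟨Finset.mem_univ _, ?_⟩
    rw [he.2]
    exact he.1
  · intro r _
    rfl
  · intro e he
    rw [Finset.mem_filter] at he
    exact Prod.ext rfl he.2
  · intro r _
    rfl

theorem hTR : StTR := by
  intro p _ F f h
  have key : ∀ e : W p × W p, ∑ x : W p, lineSum f e.1 x * lineSum h x e.2 =
      ∑ a : G p, ∑ b : G p, f a * h b * (if rmul e.1 (a * b) = e.2 then (1 : ℝ) else 0) := by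
    intro e
    have h1 := sum_lineSum f e.1 (fun x => lineSum h x e.2)
    have h2 : ∑ x : W p, lineSum f e.1 x * lineSum h x e.2 = ∑ x : W p, lineSum h x e.2 * lineSum f e.1 x :=
      Finset.sum_congr rfl fun x _ => mul_comm _ _
    rw [h2, h1]
    refine Finset.sum_congr rfl fun a _ => ?_
    unfold lineSum
    rw [Finset.sum_mul]
    refine Finset.sum_congr rfl fun b _ => ?_
    rw [rmul_mul']
    by_cases hc : rmul (rmul e.1 a) b = e.2
    · rw [if_pos hc, if_pos hc]
      ring
    · rw [if_neg hc, if_neg hc]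
      ring
  rw [Finset.sum_congr rfl fun e _ => key e, Finset.sum_comm]
  unfold TT
  refine Finset.sum_congr rfl fun a _ => ?_
  rw [Finset.sum_comm]
  refine Finset.sum_congr rfl fun b _ => ?_
  rw [RR_eq, Finset.mul_sum]

end Pool.Agent.Helper82.SY
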